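import Mathlib
import Pool.Agent.H217Z.OrbDefs
import Pool.Agent.H217Z.OrbProof

set_option autoImplicit false

namespace Pool.Agent.Results.MP_4be736_ag.ACounter

open Pool.Agent.H217Z.Orb

/-- A smooth orbifold pair `(ℙ², c · {F = 0})` which is weakly uniruled but not uniruled. -/
theorem result : ∃ (F : MvPolynomial (Fin 3) ℂ) (d : ℕ) (c : ℚ),
    SmoothCurve F d ∧ 0 < c ∧ c ≤ 1 ∧ WeaklyUniruled d c ∧ ¬ Uniruled F d c :=
  ⟨fermat, 20, 1 / 7, fermat_smooth, by norm_num, by norm_num, weakly (by norm_num),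
    not_uniruled⟩

end Pool.Agent.Results.MP_4be736_ag.ACounter
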